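import Pool.Agent.H715.TW.Stm4

/-!
# T4Q: the primes of `𝓞 ℚ` are the prime numbers (subtask of helper715's tower project)
-/

set_option autoImplicit false

namespace Pool.Agent.H168.TW

open NumberField IsDedekindDomain Pool.Agent.Q92.AR WithZero

local instance instFactPrimes (p : Nat.Primes) : Fact p.1.Prime := ⟨p.2⟩

theorem mem_iff (v : HeightOneSpectrum (𝓞 ℚ)) (n : ℕ) :
    (n : 𝓞 ℚ) ∈ v.asIdeal ↔ (Rat.HeightOneSpectrum.primesEquiv v : ℕ) ∣ n := by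
  have h : (Rat.HeightOneSpectrum.primesEquiv v : ℕ) = Rat.HeightOneSpectrum.natGenerator v := rfl
  rw [h, Rat.HeightOneSpectrum.natGenerator_dvd_iff]
  have h2 := Ideal.apply_mem_of_equiv_iff (I := v.asIdeal)
    (f := Rat.IsIntegralClosure.intEquiv (𝓞 ℚ)) (x := (n : 𝓞 ℚ))
  rw [map_natCast] at h2
  exact h2.symm

theorem val_gen (v : HeightOneSpectrum (𝓞 ℚ)) :
    v.valuation ℚ (((Rat.HeightOneSpectrum.primesEquiv v : ℕ) : ℕ) : ℚ) = exp (-1 : ℤ) := by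
  set p : ℕ := (Rat.HeightOneSpectrum.primesEquiv v : ℕ) with hp
  have hp0 : p ≠ 0 := (Rat.HeightOneSpectrum.primesEquiv v).2.ne_zero
  have hspan : v.asIdeal = Ideal.span {((p : ℕ) : 𝓞 ℚ)} := by
    have h1 := Rat.HeightOneSpectrum.span_natGenerator v
    ext x
    rw [← Ideal.apply_mem_of_equiv_iff (I := v.asIdeal)
      (f := Rat.IsIntegralClosure.intEquiv (𝓞 ℚ)) (x := x), ← h1, Ideal.mem_span_singleton,
      Ideal.mem_span_singleton]
    have h2 : (Rat.IsIntegralClosure.intEquiv (𝓞 ℚ)) ((p : ℕ) : 𝓞 ℚ) =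
        ((Rat.HeightOneSpectrum.natGenerator v : ℕ) : ℤ) := by
      rw [map_natCast]
      rfl
    rw [← h2]
    exact map_dvd_iff (Rat.IsIntegralClosure.intEquiv (𝓞 ℚ))
  have h0 : ((p : ℕ) : 𝓞 ℚ) ≠ 0 := Nat.cast_ne_zero.2 hp0
  have h4 := v.intValuation_singleton h0 hspan
  rw [← h4, ← HeightOneSpectrum.valuation_of_algebraMap (K := ℚ)]
  congr 1

theorem val_eq (v : HeightOneSpectrum (𝓞 ℚ)) (x : ℚ) (hx : x ≠ 0) :
    v.valuation ℚ x = exp (-(padicValRat (Rat.HeightOneSpectrum.primesEquiv v : ℕ) x)) := by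
  set p : ℕ := (Rat.HeightOneSpectrum.primesEquiv v : ℕ) with hp
  have : Fact p.Prime := ⟨(Rat.HeightOneSpectrum.primesEquiv v).2⟩
  have hp0 : (p : ℚ) ≠ 0 := Nat.cast_ne_zero.2 (Fact.out : p.Prime).ne_zero
  set k : ℤ := padicValRat p x with hk
  have hy0 : x / (p : ℚ) ^ k ≠ 0 := div_ne_zero hx (zpow_ne_zero _ hp0)
  have hy : padicValRat p (x / (p : ℚ) ^ k) = 0 := by
    rw [padicValRat.div hx (zpow_ne_zero _ hp0), padicValRat.zpow, padicValRat.self
      (Fact.out : p.Prime).one_lt, mul_one, ← hk, sub_self]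
  have hy1 : Rat.padicValuation p (x / (p : ℚ) ^ k) = 1 := by
    simp only [Rat.padicValuation, Valuation.coe_mk, MonoidWithZeroHom.coe_mk, ZeroHom.coe_mk,
      hy0, if_false, hy, neg_zero, exp_zero]
  have hy2 : v.valuation ℚ (x / (p : ℚ) ^ k) = 1 :=
    (Rat.HeightOneSpectrum.valuation_equiv_padicValuation v).eq_one_iff_eq_one.2 hy1
  have h5 : v.valuation ℚ x = v.valuation ℚ (x / (p : ℚ) ^ k) * v.valuation ℚ (p : ℚ) ^ k := by
    rw [← map_zpow₀, ← map_mul, div_mul_cancel₀ _ (zpow_ne_zero _ hp0)]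
  rw [h5, hy2, one_mul, val_gen v, ← exp_zsmul]
  simp

theorem t4q : Pool.Agent.H715.TW.S_T4Q := by
  refine ⟨Rat.HeightOneSpectrum.primesEquiv, fun v => ⟨mem_iff v, fun x => ?_⟩⟩
  have h1 := Pool.Agent.Q128.AR.val_prin x v
  rw [val_eq v (x : ℚ) x.ne_zero] at h1
  have h2 := exp_injective h1
  omega

end Pool.Agent.H168.TW
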